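import Pool.Agent.TH17.NotFree

set_option autoImplicit false

/-!
# A torsion class of degree one
-/

namespace Pool.Agent.Y161.QF

open Pool.Agent.TH17.Coh

variable {l : ℕ} {G : Type} [Group G]

/-- The class of degree one of an almost invariant function is not zero, and it is killed by a
nonzero combination of the square of any class of degree two and any class of degree four. -/
theorem torsion [Fact l.Prime] (S : Subgroup G) [Finite S] [IsCyclic S] (h : G ⧸ S → ℤ)
    (hfin : AlmostInv h) (g₀ : G) (hg₀ : J h l 1 g₀ (fun _ => 1) ≠ 0) :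
    ∃ z : Cohomology l G 1, z ≠ 0 ∧ ∀ (c₁ : Cocycle l G 2) (c₂ : Cocycle l G 4),
      ∃ a b : ZMod l, (a ≠ 0 ∨ b ≠ 0) ∧
        a • cupTotal c₁ (cupTotal c₁ (incl l G 1 z)) + b • cupTotal c₂ (incl l G 1 z) = 0 := by
  -- the class of degree one
  let x : Cocycle l G 1 := ⟨xco h l, xco_cocycle h hfin⟩
  refine ⟨mkClass l G 1 x, ?_, ?_⟩
  · intro h1
    rw [mkClass_eq_zero] at h1
    obtain ⟨b, hb⟩ := h1
    apply hg₀
    have h2 := congrFun hb (fun _ => g₀)
    rw [diff_apply, Fin.sum_univ_one] at h2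
    have h3 : (fun i : Fin 0 => (fun _ : Fin 1 => g₀) i.succ) =
      Fin.contractNth (0 : Fin 1) (· * ·) (fun _ : Fin 1 => g₀) := by
      funext i
      exact i.elim0
    rw [h3] at h2
    have h4 : (x : Cochain l G 1) (fun _ => g₀) = 0 := by
      rw [← h2]
      simp
    exact h4
  intro c₁ c₂
  let m : TotalCohomology l G := incl l G 1 (mkClass l G 1 x)
  -- the relation
  let f : Cocycle l S 4 := ⟨res S (cup (c₁ : Cochain l G 2) (c₁ : Cochain l G 2)),
    res_mem S _ (cup_mem_cocycle c₁ 2 _ c₁.2)⟩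
  let g : Cocycle l S 4 := ⟨res S (c₂ : Cochain l G 4), res_mem S _ c₂.2⟩
  obtain ⟨a, b, hab, β, hβ⟩ := exists_dep 3 ⟨2, rfl⟩ f g
  let c : Cocycle l G 4 := a • ⟨cup (c₁ : Cochain l G 2) (c₁ : Cochain l G 2),
    cup_mem_cocycle c₁ 2 _ c₁.2⟩ + b • c₂
  have hcx := cup_xco h hfin c β (by
    intro g
    rw [hβ]
    rfl)
  refine ⟨a, b, hab, ?_⟩
  change a • cupTotal c₁ (cupTotal c₁ m) + b • cupTotal c₂ m = 0
  have e2 : cupTotal c₁ m = incl l G (2 + 1) (mkClass l G (2 + 1) (cupZ c₁ 1 x)) :=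
    cupTotal_incl c₁ 1 x
  have e3 : cupTotal c₂ m = incl l G 5 (mkClass l G 5 (cupZ c₂ 1 x)) := cupTotal_incl c₂ 1 x
  have e4 : cupTotal c₁ (cupTotal c₁ m) =
      incl l G 5 (mkClass l G 5 (cupZ c₁ 3 (cupZ c₁ 1 x))) := by
    rw [e2]
    exact cupTotal_incl c₁ 3 _
  have e7 : ∀ u v : Cocycle l G 5, a • incl l G 5 (mkClass l G 5 u) +
      b • incl l G 5 (mkClass l G 5 v) = incl l G 5 (mkClass l G 5 (a • u + b • v)) := by
    intro u v
    rw [map_add, map_add, map_smul, map_smul, map_smul, map_smul]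
  rw [e4, e3]
  refine (e7 _ _).trans ?_
  have e5 : mkClass l G 5 (a • (cupZ c₁ 3 (cupZ c₁ 1 x) : Cocycle l G 5) +
      b • (cupZ c₂ 1 x : Cocycle l G 5)) = 0 := by
    rw [mkClass_eq_zero]
    have e6 : cup (c : Cochain l G 4) (xco h l) =
        ((a • (cupZ c₁ 3 (cupZ c₁ 1 x) : Cocycle l G 5) +
          b • (cupZ c₂ 1 x : Cocycle l G 5) : Cocycle l G 5) : Cochain l G 5) := by
      refine cochain_ext (n := 5) fun y => ?_
      have r1 : ev (cup (c : Cochain l G 4) (xco h l)) y =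
          (a * (ev (c₁ : Cochain l G 2) y * ev (c₁ : Cochain l G 2) (sh 2 y)) +
            b * ev (c₂ : Cochain l G 4) y) * ev (xco h l) (sh 4 y) := by
        rw [ev_cup, ← ev_cup]
        rfl
      have r2 : ev (cup (c₁ : Cochain l G 2)
          (cup (c₁ : Cochain l G 2) (x : Cochain l G 1))) y =
          ev (c₁ : Cochain l G 2) y * (ev (c₁ : Cochain l G 2) (sh 2 y) *
            ev (xco h l) (sh 4 y)) := by
        rw [ev_cup, ev_cup, sh_sh]
      have r3 : ev (cup (c₂ : Cochain l G 4) (x : Cochain l G 1)) y =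
          ev (c₂ : Cochain l G 4) y * ev (xco h l) (sh 4 y) := ev_cup _ _ _
      refine Eq.trans r1 ?_
      change _ = a * ev (cup (c₁ : Cochain l G 2)
          (cup (c₁ : Cochain l G 2) (x : Cochain l G 1))) y +
          b * ev (cup (c₂ : Cochain l G 4) (x : Cochain l G 1)) y
      rw [r2, r3]
      ring
    rw [e6] at hcx
    exact hcx
  rw [e5, map_zero]

end Pool.Agent.Y161.QF
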