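import Pool.Agent.TH17.Almost

set_option autoImplicit false

open Polynomial IsDedekindDomain WithZero
open scoped MatrixGroups

namespace Pool.Agent.Y161.QF

open Pool.Agent.TH17.FF Pool.Agent.TH17

/-- The data of a loop with a free parameter `s`: two edges at the base vertex, not equivalent
under the constant matrices, the first one with trivial stabiliser, and such that the matrix
joining them is defined over the ring. -/
structure LoopData2 {k : Type} [Field k] (p t t' s : k[X]) : Prop where
  degree_one : (t' * s).natDegree ≤ p.natDegree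
  degree_two : ((t' - t) * p - t * t' * s).natDegree ≤ p.natDegree
  degree_three : s.natDegree ≤ p.natDegree
  degree_four : (t * s).natDegree ≤ p.natDegree
  not_dvd : ¬ p ∣ s
  not_equiv : ∀ a b c d : k, a * d - b * c ≠ 0 → ¬ p ∣ (C a * t + C b) - t' * (C c * t + C d)
  stabilizer : ∀ a b c d : k, a * d - b * c ≠ 0 → p ∣ (C a * t + C b) - t * (C c * t + C d) →
    b = 0 ∧ c = 0 ∧ a = d

section loop

variable {k : Type} [Field k] {P : HeightOneSpectrum k[X]} {p t t' s : k[X]}

/-- the matrix of the loop -/
noncomputable def loopMat (hP : P.asIdeal = Ideal.span {p}) (hp : p ≠ 0)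
    (D : LoopData2 p t t' s) :
    Matrix (Fin 2) (Fin 2) (OKS k {some P}) :=
  !![⟨algebraMap k[X] (RatFunc k) (p + t' * s) / algebraMap k[X] (RatFunc k) p,
      mem_of_num hP hp _ ((natDegree_add_le _ _).trans (max_le le_rfl D.degree_one))⟩,
    ⟨algebraMap k[X] (RatFunc k) ((t' - t) * p - t * t' * s) / algebraMap k[X] (RatFunc k) p,
      mem_of_num hP hp _ D.degree_two⟩;
    ⟨algebraMap k[X] (RatFunc k) s / algebraMap k[X] (RatFunc k) p,
      mem_of_num hP hp _ D.degree_three⟩,
    ⟨algebraMap k[X] (RatFunc k) (p - t * s) / algebraMap k[X] (RatFunc k) p,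
      mem_of_num hP hp _ ((natDegree_sub_le _ _).trans (max_le le_rfl D.degree_four))⟩]

theorem loopMat_det (hP : P.asIdeal = Ideal.span {p}) (hp : p ≠ 0) (D : LoopData2 p t t' s) :
    (loopMat hP hp D).det = 1 := by
  have hp' : algebraMap k[X] (RatFunc k) p ≠ 0 := by
    simpa using hp
  apply Subtype.ext
  unfold loopMat
  rw [Matrix.det_fin_two_of]
  change (algebraMap k[X] (RatFunc k) (p + t' * s) / algebraMap k[X] (RatFunc k) p) *
    (algebraMap k[X] (RatFunc k) (p - t * s) / algebraMap k[X] (RatFunc k) p) -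
    (algebraMap k[X] (RatFunc k) ((t' - t) * p - t * t' * s) / algebraMap k[X] (RatFunc k) p) *
    (algebraMap k[X] (RatFunc k) s / algebraMap k[X] (RatFunc k) p) = 1
  simp only [map_add, map_sub, map_mul]
  field_simp
  ring

/-- the element of the group defined by the loop -/
noncomputable def loopEl (hP : P.asIdeal = Ideal.span {p}) (hp : p ≠ 0)
    (D : LoopData2 p t t' s) :
    GL (Fin 2) (OKS k {some P}) :=
  Matrix.SpecialLinearGroup.toGL ⟨loopMat hP hp D, loopMat_det hP hp D⟩

theorem act_loopEl (hP : P.asIdeal = Ideal.span {p}) (hp : p ≠ 0) (D : LoopData2 p t t' s)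
    (w : RatFunc k × RatFunc k) :
    (act (mat (loopEl hP hp D)) w).2 = w.2 + algebraMap k[X] (RatFunc k) s /
        algebraMap k[X] (RatFunc k) p * (w.1 - algebraMap k[X] (RatFunc k) t * w.2) ∧
    (act (mat (loopEl hP hp D)) w).1 - algebraMap k[X] (RatFunc k) t' *
      (act (mat (loopEl hP hp D)) w).2 = w.1 - algebraMap k[X] (RatFunc k) t * w.2 := by
  have hp' : algebraMap k[X] (RatFunc k) p ≠ 0 := by
    simpa using hp
  have e00 : mat (loopEl hP hp D) 0 0 =
    algebraMap k[X] (RatFunc k) (p + t' * s) / algebraMap k[X] (RatFunc k) p := rfl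
  have e01 : mat (loopEl hP hp D) 0 1 =
    algebraMap k[X] (RatFunc k) ((t' - t) * p - t * t' * s) / algebraMap k[X] (RatFunc k) p := rfl
  have e10 : mat (loopEl hP hp D) 1 0 =
    algebraMap k[X] (RatFunc k) s / algebraMap k[X] (RatFunc k) p := rfl
  have e11 : mat (loopEl hP hp D) 1 1 =
    algebraMap k[X] (RatFunc k) (p - t * s) / algebraMap k[X] (RatFunc k) p := rfl
  simp only [act]
  rw [e00, e01, e10, e11]
  simp only [map_add, map_sub, map_mul]
  constructor
  · field_simp
    ring
  · field_simp
    ring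

theorem nrmT_loopEl (hP : P.asIdeal = Ideal.span {p}) (hp : p ≠ 0) (D : LoopData2 p t t' s)
    (w : RatFunc k × RatFunc k) :
    nrmT (P.valuation (RatFunc k)) (algebraMap k[X] (RatFunc k) t')
      (act (mat (loopEl hP hp D)) w) =
    nrmT (P.valuation (RatFunc k)) (algebraMap k[X] (RatFunc k) t) w := by
  obtain ⟨h1, h2⟩ := act_loopEl hP hp D w
  unfold nrmT
  rw [h2, h1]
  set v := P.valuation (RatFunc k)
  set b := w.1 - algebraMap k[X] (RatFunc k) t * w.2
  set e := algebraMap k[X] (RatFunc k) s / algebraMap k[X] (RatFunc k) p * b with he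
  have h3 : v e ≤ exp 1 * v b := by
    rw [he, map_mul, map_div₀, val_p hP hp]
    gcongr
    rw [div_le_iff₀ (by simp), ← exp_add]
    simpa using val_poly_le (P := P) s
  apply le_antisymm
  · apply max_le
    · exact (Valuation.map_add _ _ _).trans (max_le_max le_rfl h3)
    · exact le_max_right _ _
  · apply max_le
    · have h4 : w.2 = (w.2 + e) - e := by ring
      calc v w.2 = v ((w.2 + e) - e) := by rw [← h4]
        _ ≤ max (v (w.2 + e)) (v e) := Valuation.map_sub _ _ _
        _ ≤ max (v (w.2 + e)) (exp 1 * v b) := max_le_max le_rfl h3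
    · exact le_max_right _ _

theorem P2_loop (hP : P.asIdeal = Ideal.span {p}) (hp : p ≠ 0) (D : LoopData2 p t t' s)
    (g : GL (Fin 2) (OKS k {some P})) :
    P2 t t' (loopEl hP hp D * g) ↔ P2 t t g := by
  unfold P2
  rw [mat_mul, act_mul, act_mul, nrmT_loopEl, nrmT_loopEl]

/-- the edge of `g` separates the base lattice and its translate by the loop element only if it is
the translate of the base edge by this element -/
theorem eq_of_change (hP : P.asIdeal = Ideal.span {p}) (hp : p ≠ 0) (D : LoopData2 p t t' s)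
    (g : GL (Fin 2) (OKS k {some P})) (h : ¬ (P1 t ((loopEl hP hp D)⁻¹ * g) ↔ P1 t g)) :
    ∃ c : kˣ, g = loopEl hP hp D * sc k P c := by
  have h1 : P1 t g ↔ P2 t t' g := by
    by_contra hne
    obtain ⟨a, b, c, d, -, -, -, -, hdet, hdvd⟩ := const_of_ne hP hp t t' g hne
    exact D.not_equiv a b c d hdet hdvd
  have h2 : P2 t t' g ↔ P2 t t ((loopEl hP hp D)⁻¹ * g) := by
    rw [← P2_loop hP hp D, mul_inv_cancel_left]
  have h3 : ¬ (P1 t ((loopEl hP hp D)⁻¹ * g) ↔ P2 t t ((loopEl hP hp D)⁻¹ * g)) := by
    intro h4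
    exact h (h4.trans (h2.symm.trans h1.symm))
  obtain ⟨a, b, c, d, ha, hb, hc, hd, hdet, hdvd⟩ := const_of_ne hP hp t t _ h3
  obtain ⟨rfl, rfl, rfl⟩ := D.stabilizer a b c d hdet hdvd
  have ha0 : a ≠ 0 := by
    rintro rfl
    simp at hdet
  refine ⟨Units.mk0 a ha0, ?_⟩
  rw [← inv_mul_eq_iff_eq_mul]
  apply mat_injective
  rw [mat_sc]
  ext i j
  fin_cases i <;> fin_cases j
  · simpa using ha
  · simpa using hb
  · simpa using hc
  · simpa using hd

theorem P1_loopEl (hP : P.asIdeal = Ideal.span {p}) (hp : p ≠ 0) (D : LoopData2 p t t' s) :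
    P1 t (loopEl hP hp D) := by
  unfold P1
  obtain ⟨h1, h2⟩ := act_loopEl hP hp D (u1 t)
  obtain ⟨h3, h4⟩ := act_loopEl hP hp D (u2 k)
  have e1 : (u1 t).1 - algebraMap k[X] (RatFunc k) t * (u1 t).2 = 0 := by simp [u1]
  have e2 : (u2 k).1 - algebraMap k[X] (RatFunc k) t * (u2 k).2 = 1 := by simp [u2]
  have e3 : (u1 t).2 = 1 := rfl
  have e4 : (u2 k).2 = 0 := rfl
  rw [e1, mul_zero, add_zero, e3] at h1
  rw [e1, h1, mul_one, sub_eq_zero] at h2
  rw [e2, e4, mul_one, zero_add] at h3
  have h5 : nrm (P.valuation (RatFunc k)) (act (mat (loopEl hP hp D)) (u1 t)) = 1 := by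
    unfold nrm
    rw [h1, h2, map_one]
    exact max_eq_right (val_poly_le t')
  have h6 : P.valuation (RatFunc k) (act (mat (loopEl hP hp D)) (u2 k)).2 = exp 1 := by
    rw [h3, map_div₀, val_p hP hp]
    have h7 : P.valuation (RatFunc k) (algebraMap k[X] (RatFunc k) s) = 1 := by
      rw [HeightOneSpectrum.valuation_eq_one_iff_notMem, hP, Ideal.mem_span_singleton]
      exact D.not_dvd
    rw [h7, exp_neg, one_div, inv_inv]
  rw [h5]
  refine lt_of_lt_of_le ?_ (le_max_right _ _)
  rw [h6, ← exp_zero, exp_lt_exp]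
  norm_num

theorem J_loop [Finite k] (l : ℕ) [Fact l.Prime] (hP : P.asIdeal = Ideal.span {p}) (hp : p ≠ 0)
    (D : LoopData2 p t t' s) :
    Coh.J (hQ (P := P) t) l 1 (loopEl hP hp D) (fun _ => 1) ≠ 0 := by
  unfold Coh.J
  rw [finsum_eq_single _ (QuotientGroup.mk (loopEl hP hp D))]
  · rw [hQ_smul_mk, hQ_smul_mk, inv_mul_cancel, inv_one, one_mul]
    have h1 : hG (P := P) t 1 = 0 := by
      unfold hG
      rw [if_neg (not_P1_one t)]
    have h2 : hG (P := P) t (loopEl hP hp D) = 1 := by
      unfold hG
      rw [if_pos (P1_loopEl hP hp D)]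
    rw [h1, h2]
    simp
  · intro y hy
    induction y using QuotientGroup.induction_on with
    | H z =>
      have h1 : hG t ((loopEl hP hp D)⁻¹ * z) = hG t z := by
        rw [hG_eq_iff]
        by_contra h
        obtain ⟨c, hc⟩ := eq_of_change hP hp D z h
        apply hy
        rw [QuotientGroup.eq, hc]
        refine ⟨c⁻¹, ?_⟩
        rw [map_inv, mul_inv_rev, mul_assoc, inv_mul_cancel, mul_one]
      rw [hQ_smul_mk, hQ_smul_mk, h1, inv_one, one_mul, sub_self, Int.cast_zero, zero_mul]

end loop

section exist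

variable {k : Type} [Field k]

/-- the parameter `s` from two monic polynomials of degree `m` -/
theorem loopData_of {p t t' : k[X]} {m : ℕ} (hpm : p.Monic) (ht : t.Monic) (ht' : t'.Monic)
    (hdt : t.natDegree = m) (hdt' : t'.natDegree = m) (hm : 1 ≤ m) (h2m : 2 * m ≤ p.natDegree)
    (hdiff : 1 ≤ (t' - t).natDegree)
    (h1 : 2 * m = p.natDegree → m < (p - t * t').natDegree)
    (h2 : 2 * m = p.natDegree → m < (p - t * t).natDegree) :
    LoopData2 p t t' (p /ₘ t - p /ₘ t') := by
  have hdb : (p /ₘ t).natDegree = p.natDegree - m := by rw [natDegree_divByMonic p ht, hdt]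
  have hdd : (p /ₘ t').natDegree = p.natDegree - m := by rw [natDegree_divByMonic p ht', hdt']
  have hs : (p /ₘ t - p /ₘ t').natDegree ≤ p.natDegree - m :=
    (natDegree_sub_le _ _).trans (by rw [hdb, hdd, max_self])
  have e1 : p %ₘ t + t * (p /ₘ t) = p := modByMonic_add_div p t
  have e2 : p %ₘ t' + t' * (p /ₘ t') = p := modByMonic_add_div p t'
  have r1 : (p %ₘ t).natDegree < m := by
    have := natDegree_modByMonic_lt p ht (by
      intro h
      rw [h, natDegree_one] at hdt
      omega)
    omega
  have r2 : (p %ₘ t').natDegree < m := by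
    have := natDegree_modByMonic_lt p ht' (by
      intro h
      rw [h, natDegree_one] at hdt'
      omega)
    omega
  have ht0 : t ≠ 0 := ht.ne_zero
  have htt : t' - t ≠ 0 := by
    intro h
    rw [h, natDegree_zero] at hdiff
    omega
  -- the degree of a combination
  have key : ∀ (u : k[X]) (hu : u.Monic) (hud : u.natDegree = m) (a b c d : k),
      p ∣ (C a * t + C b) - u * (C c * t + C d) →
      (2 * m = p.natDegree → m < (p - t * u).natDegree) →
      c = 0 ∧ C a * t + C b = C d * u := by
    intro u hu hud a b c d hdvd hlt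
    set E := (C a * t + C b) - u * (C c * t + C d) with hE
    have hEd : (E + C c * (t * u)).natDegree ≤ m := by
      have : E + C c * (t * u) = (C a * t + C b) - C d * u := by rw [hE]; ring
      rw [this]
      refine (natDegree_sub_le _ _).trans (max_le ?_ ?_)
      · refine (natDegree_add_le _ _).trans (max_le ?_ ?_)
        · exact (natDegree_C_mul_le _ _).trans hdt.le
        · rw [natDegree_C]; omega
      · exact (natDegree_C_mul_le _ _).trans hud.le
    have htu : (t * u).natDegree = 2 * m := by
      rw [ht.natDegree_mul hu, hdt, hud]; ring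
    obtain ⟨w, hw⟩ := hdvd
    have hc : c = 0 := by
      by_contra hc0
      -- the degree of `E` is `2m`
      have hE2 : E.natDegree = 2 * m := by
        have h3 : E = (E + C c * (t * u)) - C c * (t * u) := by ring
        rw [h3, natDegree_sub_eq_right_of_natDegree_lt]
        · rw [natDegree_C_mul hc0, htu]
        · rw [natDegree_C_mul hc0, htu]
          omega
      have hw0 : w ≠ 0 := by
        rintro rfl
        rw [mul_zero] at hw
        rw [hw, natDegree_zero] at hE2
        omega
      have h4 : E.natDegree = p.natDegree + w.natDegree := by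
        rw [hw, hpm.natDegree_mul' hw0]
      have h5 : 2 * m = p.natDegree := by omega
      have h6 : w.natDegree = 0 := by omega
      have h7 : w = C (w.coeff 0) := eq_C_of_natDegree_eq_zero h6
      have h8 : E.coeff (2 * m) = -c := by
        have h3 : E = (E + C c * (t * u)) - C c * (t * u) := by ring
        rw [h3, coeff_sub, coeff_eq_zero_of_natDegree_lt (by omega : _ < 2 * m), coeff_C_mul]
        have : (t * u).coeff (2 * m) = 1 := by
          have := (ht.mul hu).coeff_natDegree
          rwa [htu] at this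
        rw [this]
        ring
      have h9 : E.coeff (2 * m) = w.coeff 0 := by
        rw [hw, h7, coeff_mul_C, h5, hpm.coeff_natDegree]
        simp
      have h10 : E = -(C c * p) := by
        rw [hw, h7, ← h9, h8, C_neg]
        ring
      have h11 : C c * (p - t * u) = -(E + C c * (t * u)) := by
        rw [h10]; ring
      have h12 : (p - t * u).natDegree ≤ m := by
        rw [← natDegree_C_mul hc0, h11, natDegree_neg]
        exact hEd
      have := hlt h5
      omega
    refine ⟨hc, ?_⟩
    have h3 : E.natDegree ≤ m := by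
      rw [hc] at hEd
      simpa using hEd
    have hE0 : E = 0 := by
      by_contra hne
      have h4 := natDegree_le_of_dvd ⟨w, hw⟩ hne
      omega
    rw [hE, hc] at hE0
    simp only [map_zero, zero_mul, zero_add] at hE0
    rw [sub_eq_zero] at hE0
    rw [hE0]
    ring
  refine ⟨?_, ?_, ?_, ?_, ?_, ?_, ?_⟩
  · refine natDegree_mul_le.trans ?_
    omega
  · have e : (t' - t) * p - t * t' * (p /ₘ t - p /ₘ t') = t' * (p %ₘ t) - t * (p %ₘ t') := by
      linear_combination (-t') * e1 + t * e2
    rw [e]
    refine (natDegree_sub_le _ _).trans (max_le ?_ ?_)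
    · refine natDegree_mul_le.trans ?_
      omega
    · refine natDegree_mul_le.trans ?_
      omega
  · omega
  · refine natDegree_mul_le.trans ?_
    omega
  · intro hdvd
    have hs0 : p /ₘ t - p /ₘ t' = 0 := by
      by_contra hne
      have := natDegree_le_of_dvd hdvd hne
      omega
    have h3 : (t' - t) * (p /ₘ t) = p %ₘ t - p %ₘ t' := by
      have h4 : p /ₘ t' = p /ₘ t := (sub_eq_zero.mp hs0).symm
      rw [h4] at e2
      linear_combination e2 - e1
    have hb0 : p /ₘ t ≠ 0 := by
      intro h
      rw [h, natDegree_zero] at hdb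
      omega
    have h5 : ((t' - t) * (p /ₘ t)).natDegree = (t' - t).natDegree + (p.natDegree - m) := by
      rw [natDegree_mul htt hb0, hdb]
    have h6 : (p %ₘ t - p %ₘ t').natDegree < m :=
      lt_of_le_of_lt (natDegree_sub_le _ _) (max_lt r1 r2)
    rw [← h3, h5] at h6
    omega
  · intro a b c d hdet hdvd
    obtain ⟨hc, he⟩ := key t' ht' hdt' a b c d hdvd h1
    have h3 : (C a * t + C b).coeff m = (C d * t').coeff m := by rw [he]
    have c1 : t.coeff m = 1 := by rw [← hdt]; exact ht.coeff_natDegree
    have c2 : t'.coeff m = 1 := by rw [← hdt']; exact ht'.coeff_natDegree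
    rw [coeff_add, coeff_C_mul, coeff_C_mul, c1, c2, coeff_C_ne_zero (by omega)] at h3
    have had : a = d := by simpa using h3
    have h4 : C a * (t' - t) = C b := by
      rw [← had] at he
      linear_combination -he
    have ha : a = 0 := by
      by_contra ha0
      have h5 := congrArg natDegree h4
      rw [natDegree_C_mul ha0, natDegree_C] at h5
      omega
    apply hdet
    rw [ha, hc]
    ring
  · intro a b c d hdet hdvd
    obtain ⟨hc, he⟩ := key t ht hdt a b c d hdvd h2
    have h3 : (C a * t + C b).coeff m = (C d * t).coeff m := by rw [he]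
    have c1 : t.coeff m = 1 := by rw [← hdt]; exact ht.coeff_natDegree
    rw [coeff_add, coeff_C_mul, coeff_C_mul, c1, coeff_C_ne_zero (by omega)] at h3
    have had : a = d := by simpa using h3
    have h4 : (C b : k[X]) = 0 := by
      rw [← had] at he
      linear_combination he
    exact ⟨by simpa using h4, hc, had⟩

end exist

end Pool.Agent.Y161.QF
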